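import Mathlib
import Pool.Agent.V8H42.TV.Final
import Pool.Agent.V8H60.TV.Open

set_option autoImplicit false
set_option linter.unusedSectionVars false

/-!
# Uniformly continuous Borel functions which separate the points of a Borel `G`-space
-/

namespace Pool.Agent.V8H1.TX

open Set Filter Topology MeasureTheory
open scoped Uniformity
open Pool.Agent.V8H42.TV

/-- a left uniform pseudometric -/
theorem exists_dist (G : Type) [TopologicalSpace G] [Group G] [IsTopologicalGroup G]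
    [FirstCountableTopology G] : ∃ d : G → G → ℝ, (∀ g, d g g = 0) ∧ (∀ g h, 0 ≤ d g h) ∧
      (∀ g h k, d g k ≤ d g h + d h k) ∧ (∀ g h, d g h = d h g) ∧ (∀ c, Continuous fun g => d g c) ∧
      (∀ ε > 0, ∃ O ∈ 𝓝 (1 : G), ∀ h ∈ O, ∀ g, d (g * h) g ≤ ε) ∧
      ∀ V : Set G, IsOpen V → ∀ w ∈ V, ∃ ε > 0, ∀ g, d g w < ε → g ∈ V := by
  let u : UniformSpace G := IsTopologicalGroup.leftUniformSpace G
  have hcg : IsCountablyGenerated (𝓤 G) := by
    rw [uniformity_eq_comap_nhds_one_left]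
    infer_instance
  let pm : PseudoMetricSpace G := UniformSpace.pseudoMetricSpace G
  refine ⟨dist, dist_self, fun _ _ => dist_nonneg, dist_triangle, dist_comm,
    fun c => continuous_id.dist continuous_const, ?_, ?_⟩
  · intro ε hε
    have h1 : {p : G × G | dist p.1 p.2 < ε} ∈ 𝓤 G := Metric.dist_mem_uniformity hε
    rw [uniformity_eq_comap_nhds_one_left] at h1
    obtain ⟨O, hO, h2⟩ := Filter.mem_comap.1 h1
    refine ⟨O, hO, fun h hh g => ?_⟩
    have h3 : ((g, g * h) : G × G) ∈ (fun p : G × G => p.1⁻¹ * p.2) ⁻¹' O := by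
      show g⁻¹ * (g * h) ∈ O
      rwa [inv_mul_cancel_left]
    have h4 : dist g (g * h) < ε := h2 h3
    rw [dist_comm]
    exact h4.le
  · intro V hV w hw
    obtain ⟨ε, hε, h⟩ := Metric.isOpen_iff.1 hV w hw
    exact ⟨ε, hε, fun g hg => h hg⟩

section

variable {G X : Type} [TopologicalSpace G] [Group G] [IsTopologicalGroup G] [MulAction G X]

/-- the numbers below the category essential supremum of `lam g * 1_B (g • x)` -/
def Ss (lam : G → ℝ) (B : Set X) (x : X) : Set ℝ :=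
  {r | r ≤ 1 ∧ (r ≤ 0 ∨ NM {g | r < lam g} x B)}

/-- a category essential supremum -/
noncomputable def cs (lam : G → ℝ) (B : Set X) (x : X) : ℝ := sSup (Ss lam B x)

theorem zero_mem (lam : G → ℝ) (B : Set X) (x : X) : (0 : ℝ) ∈ Ss lam B x :=
  ⟨zero_le_one, Or.inl le_rfl⟩

theorem bdd (lam : G → ℝ) (B : Set X) (x : X) : BddAbove (Ss lam B x) := ⟨1, fun _ h => h.1⟩

theorem cs_nonneg (lam : G → ℝ) (B : Set X) (x : X) : 0 ≤ cs lam B x :=
  le_csSup (bdd lam B x) (zero_mem lam B x)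

theorem cs_le_one (lam : G → ℝ) (B : Set X) (x : X) : cs lam B x ≤ 1 :=
  csSup_le ⟨0, zero_mem lam B x⟩ fun _ h => h.1

theorem down (lam : G → ℝ) (B : Set X) (x : X) {r s : ℝ} (hrs : r ≤ s) (hs : s ∈ Ss lam B x) :
    r ∈ Ss lam B x := by
  refine ⟨hrs.trans hs.1, ?_⟩
  rcases hs.2 with h | h
  · exact Or.inl (hrs.trans h)
  · exact Or.inr (h.mono (fun g hg => lt_of_le_of_lt hrs hg) Subset.rfl)

theorem cs_translate {lam : G → ℝ} {h : G} {ε : ℝ} (hl : ∀ g, |lam (g * h) - lam g| ≤ ε) (B : Set X)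
    (x : X) : cs lam B (h • x) ≤ cs lam B x + ε := by
  have hε : 0 ≤ ε := (abs_nonneg _).trans (hl 1)
  refine csSup_le ⟨0, zero_mem lam B _⟩ fun r hr => ?_
  have h0 := cs_nonneg lam B x
  rcases hr.2 with h1 | h1
  · linarith
  · rcases le_or_gt (r - ε) 0 with h2 | h2
    · linarith
    · have h3 : r - ε ∈ Ss lam B x := by
        refine ⟨by linarith [hr.1], Or.inr (h1.translate fun v hv => ?_)⟩
        have h4 := (abs_le.1 (hl v)).1
        have h5 : r < lam v := hv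
        show r - ε < lam (v * h)
        linarith
      have h4 := le_csSup (bdd lam B x) h3
      unfold cs
      linarith

theorem cs_abs {lam : G → ℝ} {h : G} {ε : ℝ} (hl : ∀ g, |lam (g * h) - lam g| ≤ ε) (B : Set X)
    (x : X) : |cs lam B (h • x) - cs lam B x| ≤ ε := by
  have h1 := cs_translate hl B x
  have h2 : ∀ g, |lam (g * h⁻¹) - lam g| ≤ ε := fun g => by
    have h3 := hl (g * h⁻¹)
    rw [inv_mul_cancel_right] at h3
    rwa [abs_sub_comm] at h3
  have h4 := cs_translate h2 B (h • x)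
  rw [inv_smul_smul] at h4
  rw [abs_le]
  constructor <;> linarith

end

theorem cs_meas {G X : Type} [TopologicalSpace G] [Group G] [IsTopologicalGroup G]
    [PolishSpace G] [MeasurableSpace G] [BorelSpace G] [MeasurableSpace X] [StandardBorelSpace X]
    [MulAction G X] (β : Base G) (hm : Measurable fun p : G × X => p.1 • p.2) {lam : G → ℝ}
    (hl : Continuous lam) {B : Set X} (hB : MeasurableSet B) : Measurable (cs lam B) := by
  refine measurable_of_Ioi fun r => ?_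
  have h1 : cs lam B ⁻¹' Ioi r = ⋃ q : {q : ℚ // r < q}, {x | ((q : ℚ) : ℝ) ∈ Ss lam B x} := by
    ext x
    rw [mem_preimage, mem_Ioi, mem_iUnion]
    constructor
    · intro h
      obtain ⟨s, hs, hrs⟩ := exists_lt_of_lt_csSup ⟨0, zero_mem lam B x⟩ h
      obtain ⟨q, hq1, hq2⟩ := exists_rat_btwn hrs
      exact ⟨⟨q, hq1⟩, down lam B x hq2.le hs⟩
    · rintro ⟨⟨q, hq⟩, h⟩
      exact lt_of_lt_of_le hq (le_csSup (bdd lam B x) h)
  rw [h1]
  refine MeasurableSet.iUnion fun q => ?_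
  have h2 : {x | ((q : ℚ) : ℝ) ∈ Ss lam B x} =
      {_x | ((q : ℚ) : ℝ) ≤ 1} ∩ ({_x | ((q : ℚ) : ℝ) ≤ 0} ∪ {x | NM {g | ((q : ℚ) : ℝ) < lam g} x B}) := by
    ext x
    rfl
  rw [h2]
  refine (MeasurableSet.const _).inter ((MeasurableSet.const _).union ?_)
  exact meas_NM β hm (isOpen_lt continuous_const hl) hB

/-- T1 -/
theorem exists_unif {G X : Type} [TopologicalSpace G] [Group G] [IsTopologicalGroup G]
    [PolishSpace G] [MeasurableSpace G] [BorelSpace G] [MeasurableSpace X] [StandardBorelSpace X]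
    [MulAction G X] (hm : Measurable fun p : G × X => p.1 • p.2) :
    ∃ Ψ : ℕ → X → ℝ, (∀ k, Measurable (Ψ k)) ∧ (∀ k x, 0 ≤ Ψ k x ∧ Ψ k x ≤ 1) ∧
      (∀ k, ∀ ε > 0, ∃ O ∈ 𝓝 (1 : G), ∀ g ∈ O, ∀ x, |Ψ k (g • x) - Ψ k x| ≤ ε) ∧
      ∀ x y, (∀ k, Ψ k x = Ψ k y) → x = y := by
  obtain ⟨A, hA, hsep⟩ := exists_separating X
  obtain ⟨β⟩ := exists_base G
  obtain ⟨d, d0, dnn, dtri, dsymm, dcont, dunif, dbase⟩ := exists_dist G
  let c : ℕ → G := TopologicalSpace.denseSeq G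
  have hc : DenseRange c := TopologicalSpace.denseRange_denseSeq _
  let lam : ℕ → ℕ → G → ℝ := fun j R g => 1 - R * d g (c j)
  have hlc : ∀ j R, Continuous (lam j R) := fun j R =>
    continuous_const.sub (continuous_const.mul (dcont (c j)))
  let Φ : ℕ × ℕ × ℕ → X → ℝ := fun i => cs (lam i.2.1 i.2.2) (A i.1)
  have hΦm : ∀ i, Measurable (Φ i) := fun i => cs_meas β hm (hlc _ _) (hA _)
  have hΦ01 : ∀ i x, 0 ≤ Φ i x ∧ Φ i x ≤ 1 := fun i x => ⟨cs_nonneg _ _ _, cs_le_one _ _ _⟩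
  have hΦu : ∀ i, ∀ ε > 0, ∃ O ∈ 𝓝 (1 : G), ∀ g ∈ O, ∀ x, |Φ i (g • x) - Φ i x| ≤ ε := by
    intro i ε hε
    have hR : (0 : ℝ) < (i.2.2 : ℝ) + 1 := by positivity
    obtain ⟨O, hO, h⟩ := dunif (ε / ((i.2.2 : ℝ) + 1)) (div_pos hε hR)
    refine ⟨O, hO, fun g hg x => cs_abs (fun g' => ?_) (A i.1) x⟩
    have h1 := h g hg g'
    have h2 := dtri (g' * g) g' (c i.2.1)
    have h3 := dtri g' (g' * g) (c i.2.1)
    rw [dsymm g' (g' * g)] at h3
    have h4 : |d (g' * g) (c i.2.1) - d g' (c i.2.1)| ≤ ε / ((i.2.2 : ℝ) + 1) := by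
      rw [abs_le]
      constructor <;> linarith
    show |1 - (i.2.2 : ℝ) * d (g' * g) (c i.2.1) - (1 - (i.2.2 : ℝ) * d g' (c i.2.1))| ≤ ε
    have h5 : 1 - (i.2.2 : ℝ) * d (g' * g) (c i.2.1) - (1 - (i.2.2 : ℝ) * d g' (c i.2.1)) =
        -((i.2.2 : ℝ) * (d (g' * g) (c i.2.1) - d g' (c i.2.1))) := by ring
    rw [h5, abs_neg, abs_mul, abs_of_nonneg (Nat.cast_nonneg i.2.2)]
    calc (i.2.2 : ℝ) * |d (g' * g) (c i.2.1) - d g' (c i.2.1)|
        ≤ ((i.2.2 : ℝ) + 1) * (ε / ((i.2.2 : ℝ) + 1)) :=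
          mul_le_mul (by linarith) h4 (abs_nonneg _) hR.le
      _ = ε := mul_div_cancel₀ _ hR.ne'
  have hm2 : Measurable fun p : G × (X × X) => p.1 • p.2 := by
    refine Measurable.prodMk ?_ ?_
    · exact hm.comp (measurable_fst.prodMk (measurable_fst.comp measurable_snd))
    · exact hm.comp (measurable_fst.prodMk (measurable_snd.comp measurable_snd))
  have hkey : ∀ x y, (∀ i, Φ i x ≤ Φ i y) → ∀ i, IsMeagre {w : G | w • x ∈ A i ∧ w • y ∉ A i} := by
    intro x y hxy i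
    by_contra hn
    have h1 : NM (univ : Set G) (x, y) (A i ×ˢ (A i)ᶜ) := by
      unfold NM
      rw [inter_univ]
      exact hn
    obtain ⟨k, -, hk⟩ := h1.local β hm2 isOpen_univ ((hA i).prod (hA i).compl)
    unfold NM at hk
    push Not at hk
    obtain ⟨w₀, hw₀⟩ := β.ne k
    obtain ⟨ε, hε, hball⟩ := dbase (β.V k) (β.isOpen k) w₀ hw₀
    obtain ⟨j, hj⟩ := hc.exists_mem_open (s := {g | d g w₀ < ε / 2})
      (isOpen_lt (dcont w₀) continuous_const) ⟨w₀, by
        show d w₀ w₀ < ε / 2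
        rw [d0]
        linarith⟩
    obtain ⟨R, hR⟩ := exists_nat_gt (2 / ε)
    have hR0 : (0 : ℝ) < R := (by positivity : (0 : ℝ) < 2 / ε).trans hR
    have hsub : ∀ r : ℝ, 0 ≤ r → {g | r < lam j R g} ⊆ β.V k := by
      intro r hr g hg
      have h2 : r < 1 - (R : ℝ) * d g (c j) := hg
      have h3 : (R : ℝ) * d g (c j) < 1 := by linarith
      have h4 : d g (c j) < ε / 2 := by
        have h5 : d g (c j) < 1 / R := by
          rw [lt_div_iff₀ hR0]
          linarith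
        have h6 : 1 / (R : ℝ) < ε / 2 := by
          rw [div_lt_div_iff₀ hR0 (by norm_num)]
          rw [div_lt_iff₀ hε] at hR
          linarith
        linarith
      have h5 : d (c j) w₀ < ε / 2 := hj
      refine hball g ?_
      have := dtri g (c j) w₀
      linarith
    have hy : Φ (i, j, R) y ≤ 0 := by
      refine csSup_le ⟨0, zero_mem _ _ _⟩ fun r hr => ?_
      rcases hr.2 with h2 | h2
      · exact h2
      · by_contra h3
        push Not at h3
        refine h2 (hk.mono ?_)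
        rintro w ⟨hw1, hw2⟩
        exact ⟨fun h => h.2 hw1, hsub r h3.le hw2⟩
    have hx : (1 / 2 : ℝ) ≤ Φ (i, j, R) x := by
      refine le_csSup (bdd _ _ _) ⟨by norm_num, Or.inr fun hx => ?_⟩
      have ho : IsOpen {g | (1 / 2 : ℝ) < lam j R g} := isOpen_lt continuous_const (hlc j R)
      refine not_isMeagre_of_isOpen ho ⟨c j, ?_⟩ ((hx.union hk).mono ?_)
      · show (1 / 2 : ℝ) < 1 - (R : ℝ) * d (c j) (c j)
        rw [d0]
        norm_num
      · intro w hw
        by_cases hwx : w • x ∈ A i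
        · exact Or.inl ⟨hwx, hw⟩
        · exact Or.inr ⟨fun h => hwx h.1, hsub _ (by norm_num) hw⟩
    have := hxy (i, j, R)
    linarith
  have hpt : ∀ x y, (∀ i, Φ i x = Φ i y) → x = y := by
    intro x y hxy
    have h1 : IsMeagre ((⋃ i, {w : G | w • x ∈ A i ∧ w • y ∉ A i}) ∪
        ⋃ i, {w : G | w • y ∈ A i ∧ w • x ∉ A i}) :=
      (isMeagre_iUnion (hkey x y fun i => (hxy i).le)).union
        (isMeagre_iUnion (hkey y x fun i => (hxy i).ge))
    obtain ⟨w, hw⟩ : ∃ w : G, w ∉ ((⋃ i, {w : G | w • x ∈ A i ∧ w • y ∉ A i}) ∪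
        ⋃ i, {w : G | w • y ∈ A i ∧ w • x ∉ A i}) := by
      by_contra hcon
      push Not at hcon
      exact not_isMeagre_of_isOpen isOpen_univ ⟨(1 : G), mem_univ _⟩
        (h1.mono fun w _ => hcon w)
    have h2 : w • x = w • y := by
      refine hsep _ _ fun i => ⟨fun h => ?_, fun h => ?_⟩
      · by_contra h'
        exact hw (Or.inl (mem_iUnion.2 ⟨i, h, h'⟩))
      · by_contra h'
        exact hw (Or.inr (mem_iUnion.2 ⟨i, h, h'⟩))
    exact smul_left_cancel w h2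
  refine ⟨fun j => Φ (Denumerable.ofNat (ℕ × ℕ × ℕ) j), fun j => hΦm _, fun j x => hΦ01 _ x,
    fun j => hΦu _, fun x y h => hpt x y fun i => ?_⟩
  have h1 : Φ (Denumerable.ofNat (ℕ × ℕ × ℕ) (Encodable.encode i)) x =
      Φ (Denumerable.ofNat (ℕ × ℕ × ℕ) (Encodable.encode i)) y := h (Encodable.encode i)
  rwa [Denumerable.ofNat_encode] at h1

end Pool.Agent.V8H1.TX
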